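import Pool.Agent.Work.MP_dfab40_lc.R.A.Unary

/-!
# API of the calculus (block A)

`S` a set of set parameters with `Σ_1` induction (`IS S`).  Everything about definability used by
the other blocks is here.
-/

namespace Pool.Agent.Work.MP_dfab40_lc.R

variable {M : Type} [PAm M] [ISig M] {A B D : Type} [Cd M A] [Cd M B] [Cd M D]
variable {S : Set (Set M)}

omit [ISig M] in
private theorem ind_P0 [IS S] {P : M → Prop} (hP : S1C S (c1 M) (fun x => ¬ P x)) (h0 : P 0)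
    (h : ∀ x, P x → P (x + 1)) (a : M) : P a := by
  by_contra ha
  have key : ∀ x, x ≤ a → ∃ z, z + x = a ∧ ¬ P z := by
    refine ind_S1C (S := S) (P := fun x => x ≤ a → ∃ z, z + x = a ∧ ¬ P z) ?_ ?_ ?_
    · refine (S1C.or (P := fun x : M => ¬ x ≤ a) (Q := fun x => ∃ z, z + x = a ∧ ¬ P z)
        (D0.not (D0.le PolyF.id (PolyF.const a))).s1 ?_).congr fun x => by tauto
      refine S1C.ex (P := fun p : M × M => p.2 + p.1 = a ∧ ¬ P p.2) (S1C.and ?_ ?_)
      · exact (D0.eq (PolyF.add PolyF.snd PolyF.id.fst) (PolyF.const a)).s1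
      · exact S1C.subst (g := fun p : M × M => p.2) (PolyM.one PolyF.snd) hP
    · exact fun _ => ⟨a, add_zero a, ha⟩
    · intro x ih hx
      obtain ⟨z, hz, hz'⟩ := ih (le_trans (le_add_of_nonneg_right zero_le) hx)
      have hz0 : 0 < z := by
        rcases eq_or_lt_of_le (zero_le : (0 : M) ≤ z) with h1 | h1
        · rw [← h1, zero_add] at hz
          rw [hz] at hx
          exact absurd hx (not_le.2 (lt_add_of_pos_right a zero_lt_one))
        · exact h1
      obtain ⟨w, hw⟩ := exists_add_of_le (PAm.one_le_of_pos z hz0)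
      refine ⟨w, by rw [← hz, hw]; ring, fun h1 => hz' ?_⟩
      rw [hw, add_comm]
      exact h w h1
  obtain ⟨z, hz, hz'⟩ := key a le_rfl
  have : z = 0 := add_right_cancel (hz.trans (zero_add a).symm)
  rw [this] at hz'
  exact hz' h0

omit [ISig M] in
private theorem least0 [IS S] {P : M → Prop} (hP : S1C S (c1 M) P) (h : ∃ x, P x) :
    ∃ x, P x ∧ ∀ y, y < x → ¬ P y := by
  by_contra hno
  push Not at hno
  have key : ∀ x, ∀ y, y < x → ¬ P y := by
    refine ind_P0 (S := S) (P := fun x => ∀ y, y < x → ¬ P y) ?_ ?_ ?_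
    · refine (S1C.bex (f := fun x : M => x) (P := fun p : M × M => P p.2) PolyF.id
        (hP.subst (PolyM.one PolyF.snd))).congr fun x => by push Not; rfl
    · exact fun y hy => absurd hy (PAm.not_lt_zero y)
    · intro x ih y hy hPy
      rcases lt_or_eq_of_le (PAm.lt_succ.1 hy) with h1 | rfl
      · exact ih y h1 hPy
      · obtain ⟨z, hz, hz'⟩ := hno y hPy
        exact ih z hz hz'
  obtain ⟨x, hx⟩ := h
  exact key (x + 1) x (PAm.lt_succ.2 le_rfl) hx

omit [ISig M] in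
private theorem least1 [IS S] {P : M → Prop} (hP : S1C S (c1 M) (fun x => ¬ P x))
    (h : ∃ x, P x) : ∃ x, P x ∧ ∀ y, y < x → ¬ P y := by
  by_contra hno
  push Not at hno
  have key : ∀ x, ∀ y, y < x → ¬ P y := by
    refine ind_S1C (S := S) (P := fun x => ∀ y, y < x → ¬ P y) ?_ ?_ ?_
    · exact S1C.ball (f := fun x : M => x) (P := fun p : M × M => ¬ P p.2) PolyF.id
        (hP.subst (g := fun p : M × M => p.2) (PolyM.one PolyF.snd))
    · exact fun y hy => absurd hy (PAm.not_lt_zero y)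
    · intro x ih y hy hPy
      rcases lt_or_eq_of_le (PAm.lt_succ.1 hy) with h1 | rfl
      · exact ih y h1 hPy
      · obtain ⟨z, hz, hz'⟩ := hno y hPy
        exact ih z hz hz'
  obtain ⟨x, hx⟩ := h
  exact key (x + 1) x (PAm.lt_succ.2 le_rfl) hx

/-! ### `D0` relations and parameters -/

theorem IS.mono {T : Set (Set M)} (h : T ⊆ S) (hS : IS S) : IS T := by
  exact ⟨fun P hP => hS.ind P (S1C.mono (CA := c1 M) h hP)⟩

theorem S1.mono {T : Set (Set M)} (h : T ⊆ S) {P : A → Prop} (hP : S1 T P) : S1 S P := by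
  exact S1C.mono h hP

theorem Dp.mono {T : Set (Set M)} (h : T ⊆ S) {P : A → Prop} (hP : Dp T P) : Dp S P :=
  ⟨S1.mono h hP.1, S1.mono h hP.2⟩

theorem Dp.param {X : Set M} (hX : X ∈ S) : Dp S (fun x : M => x ∈ X) := by
  exact ⟨(D0.mem hX PolyF.id).s1, (D0.not (D0.mem hX PolyF.id)).s1⟩

/-- Replacing the parameters by `Δ_1` sets gives nothing new. -/
theorem S1.trans [IS S] {T : Set (Set M)} (hT : ∀ X ∈ T, Dp S (fun x : M => x ∈ X)) {P : A → Prop}
    (hP : S1 T P) : S1 S P := by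
  obtain ⟨R, hR, h⟩ := hP
  exact (S1C.ex (D0.trans (fun X hX => hT X hX) hR).1).congr h

/-! ### `Σ_1` relations -/

theorem S1.and {P Q : A → Prop} (hP : S1 S P) (hQ : S1 S Q) : S1 S (fun a => P a ∧ Q a) := by
  exact S1C.and (CA := c1 M) hP hQ

theorem S1.or {P Q : A → Prop} (hP : S1 S P) (hQ : S1 S Q) : S1 S (fun a => P a ∨ Q a) := by
  exact S1C.or (CA := c1 M) hP hQ

theorem S1.ex {P : A → B → Prop} (hP : S1 S (fun p : A × B => P p.1 p.2)) :
    S1 S (fun a => ∃ b, P a b) := by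
  refine (S1C.ex (S1_pair.1 hP)).congr fun x => ?_
  constructor
  · rintro ⟨b, hb⟩
    refine ⟨Cd.e b, ?_⟩
    rw [Equiv.symm_apply_apply]
    exact hb
  · rintro ⟨y, hy⟩
    exact ⟨_, hy⟩

theorem S1.comp {P : B → Prop} {f : A → B} (hP : S1 S P) (hf : Df S f) :
    S1 S (fun a => P (f a)) := by
  refine (UC.sub1 (S1_iff.1 hP) (Df_iff.1 hf)).congr fun x => ?_
  rw [Equiv.symm_apply_apply]

theorem S1.ball [IS S] {f : A → M} {P : A → M → Prop} (hf : Df S f)
    (hP : S1 S (fun p : A × M => P p.1 p.2)) : S1 S (fun a => ∀ y, y < f a → P a y) := by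
  have h1 : S1C S (extC (c1 M)) (fun q : M × M => ∀ y, y < q.2 → P (Cd.e.symm q.1) y) :=
    S1C.ball (P := fun q : (M × M) × M => P (Cd.e.symm q.1.1) q.2) PolyF.snd
      ((S1_pair.1 hP).subst (g := fun q : (M × M) × M => (q.1.1, q.2))
        (PolyM.ext (PolyM.one PolyF.id.fst.fst) PolyF.snd))
  exact UC.subl (Q := fun q : M × M => ∀ y, y < q.2 → P (Cd.e.symm q.1) y) h1 (Df_iff.1 hf)

theorem S1.bex {f : A → M} {P : A → M → Prop} (hf : Df S f)
    (hP : S1 S (fun p : A × M => P p.1 p.2)) : S1 S (fun a => ∃ y, y < f a ∧ P a y) := by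
  have h1 : S1C S (extC (c1 M)) (fun q : M × M => ∃ y, y < q.2 ∧ P (Cd.e.symm q.1) y) :=
    S1C.bex (P := fun q : (M × M) × M => P (Cd.e.symm q.1.1) q.2) PolyF.snd
      ((S1_pair.1 hP).subst (g := fun q : (M × M) × M => (q.1.1, q.2))
        (PolyM.ext (PolyM.one PolyF.id.fst.fst) PolyF.snd))
  exact UC.subl (Q := fun q : M × M => ∃ y, y < q.2 ∧ P (Cd.e.symm q.1) y) h1 (Df_iff.1 hf)

/-- Every `Σ_1` relation is the projection of a `Δ_1` relation. -/
theorem S1.nf {P : A → Prop} (hP : S1 S P) : ∃ Q : A → M → Prop,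
    Dp S (fun p : A × M => Q p.1 p.2) ∧ ∀ a, P a ↔ ∃ w, Q a w := by
  obtain ⟨R, hR, h⟩ := hP
  refine ⟨fun a w => R (Cd.e a, w), ⟨?_, ?_⟩, fun a => ?_⟩
  · refine S1_pair.2 (hR.s1.congr fun q => ?_)
    change R (Cd.e (Cd.e.symm q.1 : A), Cd.e.symm q.2) ↔ R q
    rw [Equiv.apply_symm_apply]
    rfl
  · refine S1_pair.2 (hR.not.s1.congr fun q => ?_)
    change ¬ R (Cd.e (Cd.e.symm q.1 : A), Cd.e.symm q.2) ↔ ¬ R q
    rw [Equiv.apply_symm_apply]
    rfl
  · have h1 := h (Cd.e a)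
    simp only [Equiv.symm_apply_apply] at h1
    exact h1

/-! ### `Δ_1` relations -/

theorem Dp.not {P : A → Prop} (hP : Dp S P) : Dp S (fun a => ¬ P a) := by
  exact ⟨hP.2, S1C.congr (CA := c1 M) hP.1 fun _ => not_not⟩

theorem Dp.and {P Q : A → Prop} (hP : Dp S P) (hQ : Dp S Q) : Dp S (fun a => P a ∧ Q a) := by
  exact ⟨hP.1.and hQ.1, S1C.congr (CA := c1 M) (hP.2.or hQ.2) fun _ => not_and_or⟩

theorem Dp.or {P Q : A → Prop} (hP : Dp S P) (hQ : Dp S Q) : Dp S (fun a => P a ∨ Q a) := by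
  exact ⟨hP.1.or hQ.1, S1C.congr (CA := c1 M) (hP.2.and hQ.2) fun _ => not_or⟩

theorem Dp.imp {P Q : A → Prop} (hP : Dp S P) (hQ : Dp S Q) : Dp S (fun a => P a → Q a) := by
  have h := hP.not.or hQ
  have h2 : (fun a => P a → Q a) = fun a => ¬ P a ∨ Q a :=
    funext fun a => propext imp_iff_not_or
  rw [h2]
  exact h

theorem Dp.iff {P Q : A → Prop} (hP : Dp S P) (hQ : Dp S Q) : Dp S (fun a => P a ↔ Q a) := by
  have h := (hP.imp hQ).and (hQ.imp hP)
  have h2 : (fun a => (P a ↔ Q a)) = fun a => (P a → Q a) ∧ (Q a → P a) :=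
    funext fun a => propext iff_iff_implies_and_implies
  rw [h2]
  exact h

theorem Dp.const (p : Prop) : Dp S (fun _ : A => p) := by
  exact ⟨(D0.const p).s1, (D0.const (¬ p)).s1⟩

theorem Dp.comp {P : B → Prop} {f : A → B} (hP : Dp S P) (hf : Df S f) :
    Dp S (fun a => P (f a)) := by
  exact ⟨hP.1.comp hf, hP.2.comp (P := fun b => ¬ P b) hf⟩

theorem Dp.bex [IS S] {f : A → M} {P : A → M → Prop} (hf : Df S f)
    (hP : Dp S (fun p : A × M => P p.1 p.2)) : Dp S (fun a => ∃ y, y < f a ∧ P a y) := by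
  refine ⟨S1.bex hf hP.1, ?_⟩
  have h := S1.ball (P := fun a y => ¬ P a y) hf hP.2
  have h2 : (fun a => ¬ ∃ y, y < f a ∧ P a y) = fun a => ∀ y, y < f a → ¬ P a y := by
    funext a
    push Not
    rfl
  rw [h2]
  exact h

theorem Dp.ball [IS S] {f : A → M} {P : A → M → Prop} (hf : Df S f)
    (hP : Dp S (fun p : A × M => P p.1 p.2)) : Dp S (fun a => ∀ y, y < f a → P a y) := by
  refine ⟨S1.ball hf hP.1, ?_⟩
  have h := S1.bex (P := fun a y => ¬ P a y) hf hP.2
  have h2 : (fun a => ¬ ∀ y, y < f a → P a y) = fun a => ∃ y, y < f a ∧ ¬ P a y := by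
    funext a
    push Not
    rfl
  rw [h2]
  exact h

theorem Dp.lt {f g : A → M} (hf : Df S f) (hg : Df S g) : Dp S (fun a => f a < g a) := by
  exact ⟨UC.sub2 (Q := fun q : M × M => q.1 < q.2) (D0.lt PolyF.id.fst PolyF.snd).s1
      (Df_iff.1 hf) (Df_iff.1 hg),
    UC.sub2 (Q := fun q : M × M => ¬ q.1 < q.2) (D0.not (D0.lt PolyF.id.fst PolyF.snd)).s1
      (Df_iff.1 hf) (Df_iff.1 hg)⟩

theorem Dp.le {f g : A → M} (hf : Df S f) (hg : Df S g) : Dp S (fun a => f a ≤ g a) := by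
  exact ⟨UC.sub2 (Q := fun q : M × M => q.1 ≤ q.2) (D0.le PolyF.id.fst PolyF.snd).s1
      (Df_iff.1 hf) (Df_iff.1 hg),
    UC.sub2 (Q := fun q : M × M => ¬ q.1 ≤ q.2) (D0.not (D0.le PolyF.id.fst PolyF.snd)).s1
      (Df_iff.1 hf) (Df_iff.1 hg)⟩

theorem Dp.eq {f g : A → B} (hf : Df S f) (hg : Df S g) : Dp S (fun a => f a = g a) := by
  constructor
  · refine (UC.sub2 (Q := fun q : M × M => q.1 = q.2) (D0.eq PolyF.id.fst PolyF.snd).s1
      (Df_iff.1 hf) (Df_iff.1 hg)).congr fun x => ?_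
    exact (Equiv.apply_eq_iff_eq _).symm
  · refine (UC.sub2 (Q := fun q : M × M => ¬ q.1 = q.2)
      (D0.not (D0.eq PolyF.id.fst PolyF.snd)).s1 (Df_iff.1 hf) (Df_iff.1 hg)).congr fun x => ?_
    exact not_congr (Equiv.apply_eq_iff_eq _).symm

theorem Dp.ne {f g : A → B} (hf : Df S f) (hg : Df S g) : Dp S (fun a => f a ≠ g a) := by
  exact (Dp.eq hf hg).not

theorem Dp.congr {P Q : A → Prop} (hP : Dp S P) (h : ∀ a, P a ↔ Q a) : Dp S Q := by
  have : Q = P := funext fun a => propext (h a).symm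
  rw [this]
  exact hP

/-! ### `Δ_1` functions -/

theorem Df.id : Df S (fun a : A => a) := by
  exact Df_iff.2 ((UC.poly PolyF.id).congr fun x => Equiv.apply_symm_apply _ x)

theorem Df.const (b : B) : Df S (fun _ : A => b) := by
  exact Df_iff.2 (UC.poly (PolyF.const _))

theorem Df.comp {f : B → D} {g : A → B} (hf : Df S f) (hg : Df S g) :
    Df S (fun a => f (g a)) := by
  refine Df_iff.2 ((UC.comp (Df_iff.1 hf) (Df_iff.1 hg)).congr fun x => ?_)
  rw [Equiv.symm_apply_apply]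

theorem Df.fst {f : A → B × D} (hf : Df S f) : Df S (fun a => (f a).1) := by
  refine Df_iff.2 ((UC.comp UC.fs (Df_iff.1 hf)).congr fun x => ?_)
  rw [show f (Cd.e.symm x) = ((f (Cd.e.symm x)).1, (f (Cd.e.symm x)).2) from rfl, Cd_e_pair,
    fs_pr0]

theorem Df.snd {f : A → B × D} (hf : Df S f) : Df S (fun a => (f a).2) := by
  refine Df_iff.2 ((UC.comp UC.sn (Df_iff.1 hf)).congr fun x => ?_)
  rw [show f (Cd.e.symm x) = ((f (Cd.e.symm x)).1, (f (Cd.e.symm x)).2) from rfl, Cd_e_pair,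
    sn_pr0]

theorem Df.pair {f : A → B} {g : A → D} (hf : Df S f) (hg : Df S g) :
    Df S (fun a => (f a, g a)) := by
  exact Df_iff.2 (UC.pr (Df_iff.1 hf) (Df_iff.1 hg))

theorem Df.add {f g : A → M} (hf : Df S f) (hg : Df S g) : Df S (fun a => f a + g a) := by
  exact Df_iff.2 (UC.add (Df_iff.1 hf) (Df_iff.1 hg))

theorem Df.mul {f g : A → M} (hf : Df S f) (hg : Df S g) : Df S (fun a => f a * g a) := by
  exact Df_iff.2 (UC.mul (Df_iff.1 hf) (Df_iff.1 hg))

theorem Df.pr {f g : A → M} (hf : Df S f) (hg : Df S g) : Df S (fun a => pr (f a) (g a)) := by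
  exact Df_iff.2 (UC.pr (Df_iff.1 hf) (Df_iff.1 hg))

theorem Df.fs {f : A → M} (hf : Df S f) : Df S (fun a => fs (f a)) := by
  have h : UC S (c1 M) (fun x => R.fs (f (Cd.e.symm x))) := UC.comp UC.fs (Df_iff.1 hf)
  exact Df_iff.2 h

theorem Df.sn {f : A → M} (hf : Df S f) : Df S (fun a => sn (f a)) := by
  have h : UC S (c1 M) (fun x => R.sn (f (Cd.e.symm x))) := UC.comp UC.sn (Df_iff.1 hf)
  exact Df_iff.2 h

open Classical in
theorem Df.ite {P : A → Prop} {f g : A → B} (hP : Dp S P) (hf : Df S f) (hg : Df S g) :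
    Df S (fun a => if P a then f a else g a) := by
  have h1 : S1C S (extC (c1 M)) (fun q : M × M => P (Cd.e.symm q.1)) :=
    S1C.subst (g := fun q : M × M => q.1) PolyM.fst hP.1
  have h2 : S1C S (extC (c1 M)) (fun q : M × M => ¬ P (Cd.e.symm q.1)) :=
    S1C.subst (g := fun q : M × M => q.1) PolyM.fst hP.2
  refine Df_iff.2 (S1C.congr (S1C.or (S1C.and h1 (Df_iff.1 hf)) (S1C.and h2 (Df_iff.1 hg))) ?_)
  intro q
  by_cases h : P (Cd.e.symm q.1) <;> simp [h]

/-- A total function with a `Σ_1` graph. -/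
theorem Df.of_graph {R : A → B → Prop} {f : A → B} (hR : S1 S (fun p : A × B => R p.1 p.2))
    (hf : ∀ a b, f a = b ↔ R a b) : Df S f := by
  have h : (fun p : A × B => f p.1 = p.2) = fun p => R p.1 p.2 :=
    funext fun p => propext (hf p.1 p.2)
  unfold Df
  rw [h]
  exact hR

theorem Df.mu [IS S] {P : A → M → Prop} (hP : Dp S (fun p : A × M => P p.1 p.2))
    (h : ∀ a, ∃ y, P a y) : Df S (fun a => mu (P a)) := by
  have hfix : ∀ a, ∃ y, P a y ∧ ∀ z, z < y → ¬ P a z := fun a =>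
    least0 (S1.comp (P := fun p : A × M => P p.1 p.2) hP.1 (Df.pair (Df.const a) Df.id)) (h a)
  have hg : Dp S (fun p : A × M => P p.1 p.2 ∧ ∀ z, z < p.2 → ¬ P p.1 z) :=
    hP.and (Dp.ball (P := fun (p : A × M) z => ¬ P p.1 z) (Df.snd Df.id)
      (Dp.comp (P := fun p : A × M => ¬ P p.1 p.2) hP.not
        (Df.pair (Df.fst (Df.fst Df.id)) (Df.snd Df.id))))
  refine Df.of_graph (R := fun a y => P a y ∧ ∀ z, z < y → ¬ P a z) hg.1 fun a b => ?_
  have hm : R.mu (P a) = (hfix a).choose := dif_pos (hfix a)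
  have hs := (hfix a).choose_spec
  rw [hm]
  constructor
  · rintro rfl
    exact hs
  · rintro ⟨h1, h2⟩
    rcases lt_trichotomy (hfix a).choose b with h3 | h3 | h3
    · exact absurd hs.1 (h2 _ h3)
    · exact h3
    · exact absurd h1 (hs.2 _ h3)

/-! ### pairing -/

@[simp] theorem fs_pr (x y : M) : fs (pr x y) = x := by
  exact fs_pr0 x y

@[simp] theorem sn_pr (x y : M) : sn (pr x y) = y := by
  exact sn_pr0 x y

@[simp] theorem pr_fs_sn (z : M) : pr (fs z) (sn z) = z := by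
  exact pr_fs_sn0 z

theorem pr_inj {x y x' y' : M} : pr x y = pr x' y' ↔ x = x' ∧ y = y' := by
  constructor
  · intro h
    have h1 := congrArg fs h
    have h2 := congrArg sn h
    rw [fs_pr, fs_pr] at h1
    rw [sn_pr, sn_pr] at h2
    exact ⟨h1, h2⟩
  · rintro ⟨rfl, rfl⟩
    rfl

theorem fs_le (z : M) : fs z ≤ z := by
  have h := left_le_pr (fs z) (sn z)
  rwa [pr_fs_sn] at h

theorem sn_le (z : M) : sn z ≤ z := by
  have h := right_le_pr (fs z) (sn z)
  rwa [pr_fs_sn] at h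

/-! ### arithmetic -/

omit [ISig M] in
theorem lt_succ_iff {x y : M} : x < y + 1 ↔ x ≤ y := by
  exact PAm.lt_succ

omit [ISig M] in
theorem succ_le_iff' {x y : M} : x + 1 ≤ y ↔ x < y := by
  exact PAm.succ_le

/-- Division with remainder. -/
theorem exists_div (a : M) {b : M} (hb : 0 < b) : ∃ q r, a = b * q + r ∧ r < b := by
  revert a
  refine ind_S1C (S := (∅ : Set (Set M))) (P := fun a => ∃ q r, a = b * q + r ∧ r < b) ?_ ?_ ?_
  · refine S1C.ex (P := fun p : M × M => ∃ r, p.1 = b * p.2 + r ∧ r < b)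
      (S1C.ex (P := fun p : (M × M) × M => p.1.1 = b * p.1.2 + p.2 ∧ p.2 < b)
        (D0.and (D0.eq PolyF.id.fst.fst ?_) (D0.lt PolyF.snd (PolyF.const b))).s1)
    exact PolyF.add (PolyF.mul (PolyF.const b) PolyF.snd.fst) PolyF.snd
  · exact ⟨0, 0, by ring, hb⟩
  · rintro x ⟨q, r, h1, h2⟩
    rcases lt_or_eq_of_le (PAm.succ_le.2 h2) with h3 | h3
    · exact ⟨q, r + 1, by rw [h1]; ring, h3⟩
    · exact ⟨q + 1, 0, by rw [h1, mul_add, mul_one, add_zero, add_assoc, h3], hb⟩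

/-! ### induction, least number principles, collection -/

theorem ind_S1 [IS S] {P : M → Prop} (hP : S1 S P) (h0 : P 0) (h : ∀ x, P x → P (x + 1)) (x : M) :
    P x := by
  exact ind_S1C (S := S) hP h0 h x

/-- `Π_1` induction. -/
theorem ind_P1 [IS S] {P : M → Prop} (hP : S1 S (fun x => ¬ P x)) (h0 : P 0)
    (h : ∀ x, P x → P (x + 1)) (x : M) : P x := by
  exact ind_P0 (S := S) hP h0 h x

theorem ind_Dp [IS S] {P : M → Prop} (hP : Dp S P) (h0 : P 0) (h : ∀ x, P x → P (x + 1)) (x : M) :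
    P x := ind_S1 hP.1 h0 h x

/-- Course of values induction. -/
theorem ind_lt [IS S] {P : M → Prop} (hP : Dp S P) (h : ∀ x, (∀ y, y < x → P y) → P x) (x : M) :
    P x := by
  by_contra hx
  obtain ⟨z, hz, hz'⟩ := least0 (S := S) (P := fun x => ¬ P x) hP.2 ⟨x, hx⟩
  exact hz (h z fun y hy => not_not.1 (hz' y hy))

/-- Least number principle for `Σ_1`. -/
theorem least_S1 [IS S] {P : M → Prop} (hP : S1 S P) (h : ∃ x, P x) :
    ∃ x, P x ∧ ∀ y, y < x → ¬ P y := by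
  exact least0 hP h

/-- Least number principle for `Π_1`. -/
theorem least_P1 [IS S] {P : M → Prop} (hP : S1 S (fun x => ¬ P x)) (h : ∃ x, P x) :
    ∃ x, P x ∧ ∀ y, y < x → ¬ P y := by
  exact least1 hP h

/-- Greatest number principle for bounded nonempty `Σ_1` predicates. -/
theorem greatest_S1 [IS S] {P : M → Prop} (hP : S1 S P) (b : M) (hb : ∀ x, P x → x < b)
    (h : ∃ x, P x) : ∃ x, P x ∧ ∀ y, x < y → ¬ P y := by
  obtain ⟨x0, hx0⟩ := h
  obtain ⟨c0, hc0⟩ := PAm.exists_le (hb x0 hx0).le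
  obtain ⟨c, ⟨x, hx, hxP⟩, hc⟩ := least0 (S := S) (P := fun c => ∃ x, x + c = b ∧ P x) (by
    refine S1C.ex (P := fun p : M × M => p.2 + p.1 = b ∧ P p.2) (S1C.and ?_ ?_)
    · exact (D0.eq (PolyF.add PolyF.snd PolyF.id.fst) (PolyF.const b)).s1
    · exact S1C.subst (g := fun p : M × M => p.2) (PolyM.one PolyF.snd) hP) ⟨c0, x0, hc0, hx0⟩
  refine ⟨x, hxP, fun y hy hyP => ?_⟩
  obtain ⟨d, hd⟩ := PAm.exists_le (hb y hyP).le
  refine hc d ?_ ⟨y, hd, hyP⟩
  by_contra hcd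
  have : x + c < y + d := add_lt_add_of_lt_of_le hy (not_lt.1 hcd)
  rw [hx, hd] at this
  exact lt_irrefl _ this

/-- Greatest number principle for bounded nonempty `Π_1` predicates. -/
theorem greatest_P1 [IS S] {P : M → Prop} (hP : S1 S (fun x => ¬ P x)) (b : M)
    (hb : ∀ x, P x → x < b) (h : ∃ x, P x) : ∃ x, P x ∧ ∀ y, x < y → ¬ P y := by
  obtain ⟨x0, hx0⟩ := h
  obtain ⟨c0, hc0⟩ := PAm.exists_le (hb x0 hx0).le
  obtain ⟨c, ⟨x, hx, hxP⟩, hc⟩ := least1 (S := S) (P := fun c => ∃ x, x + c = b ∧ P x) (by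
    refine (S1C.or (P := fun c : M => b < c) (Q := fun c => ∃ x, x + c = b ∧ ¬ P x)
      (D0.lt (PolyF.const b) PolyF.id).s1 ?_).congr fun c => ?_
    · refine S1C.ex (P := fun p : M × M => p.2 + p.1 = b ∧ ¬ P p.2) (S1C.and ?_ ?_)
      · exact (D0.eq (PolyF.add PolyF.snd PolyF.id.fst) (PolyF.const b)).s1
      · exact S1C.subst (g := fun p : M × M => p.2) (PolyM.one PolyF.snd) hP
    · constructor
      · intro h1
        rcases lt_or_ge b c with h2 | h2
        · exact Or.inl h2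
        · obtain ⟨x, hx⟩ := PAm.exists_le h2
          rw [add_comm] at hx
          exact Or.inr ⟨x, hx, fun h3 => h1 ⟨x, hx, h3⟩⟩
      · rintro (h1 | ⟨x, hx, h1⟩) ⟨y, hy, h2⟩
        · exact absurd (PAm.le_of y (by rw [add_comm]; exact hy)) (not_le.2 h1)
        · rw [← hy] at hx
          rw [add_right_cancel hx] at h1
          exact h1 h2) ⟨c0, x0, hc0, hx0⟩
  refine ⟨x, hxP, fun y hy hyP => ?_⟩
  obtain ⟨d, hd⟩ := PAm.exists_le (hb y hyP).le
  refine hc d ?_ ⟨y, hd, hyP⟩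
  by_contra hcd
  have : x + c < y + d := add_lt_add_of_lt_of_le hy (not_lt.1 hcd)
  rw [hx, hd] at this
  exact lt_irrefl _ this

theorem mu_spec [IS S] {P : M → Prop} (hP : Dp S P) (h : ∃ x, P x) : P (mu P) := by
  have h1 := least0 hP.1 h
  have hm : mu P = h1.choose := dif_pos h1
  rw [hm]
  exact h1.choose_spec.1

theorem mu_le [IS S] {P : M → Prop} (hP : Dp S P) {x : M} (h : P x) : mu P ≤ x := by
  have h1 := least0 hP.1 ⟨x, h⟩
  have hm : mu P = h1.choose := dif_pos h1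
  rw [hm]
  by_contra h2
  exact h1.choose_spec.2 x (not_le.1 h2) h

/-- `Σ_1` collection. -/
theorem coll_S1 [IS S] {R : M → M → Prop} (hR : S1 S (fun p : M × M => R p.1 p.2)) (b : M)
    (h : ∀ x, x < b → ∃ y, R x y) : ∃ c, ∀ x, x < b → ∃ y, y < c ∧ R x y := by
  obtain ⟨T, hT, hT'⟩ := S1_pair.1 hR
  obtain ⟨c, hc⟩ := coll0 (S := S)
    (R := fun p : M × M => ∃ y, y < p.2 ∧ ∃ z, z < p.2 ∧ T ((p.1, y), z))
    (by
      refine D0.bex (R := fun q : (M × M) × M => ∃ z, z < q.1.2 ∧ T ((q.1.1, q.2), z))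
        PolyF.snd ?_
      refine D0.bex (f := fun q : (M × M) × M => q.1.2)
        (R := fun q : ((M × M) × M) × M => T ((q.1.1.1, q.1.2), q.2)) PolyF.snd.fst ?_
      exact hT.subst (g := fun q : ((M × M) × M) × M => ((q.1.1.1, q.1.2), q.2))
        (PolyM.ext (PolyM.ext (PolyM.one PolyF.id.fst.fst.fst) PolyF.snd.fst) PolyF.snd)) b
    (by
      intro x hx
      obtain ⟨y, hy⟩ := h x hx
      obtain ⟨z, hz⟩ := (hT' (x, y)).1 hy
      exact ⟨y + z + 1, y, PAm.lt_succ.2 (le_add_of_nonneg_right zero_le), z,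
        PAm.lt_succ.2 (le_add_of_nonneg_left zero_le), hz⟩)
  refine ⟨c, fun x hx => ?_⟩
  obtain ⟨u, hu, y, hy, z, _, hyz⟩ := hc x hx
  exact ⟨y, hy.trans hu, (hT' (x, y)).2 ⟨z, hyz⟩⟩

/-- A `Δ_1` function is bounded on bounded sets. -/
theorem Df.bdd [IS S] {f : M → M} (hf : Df S f) (b : M) : ∃ c, ∀ x, x < b → f x < c := by
  obtain ⟨c, hc⟩ := coll_S1 (R := fun x y => f x = y) hf b fun x _ => ⟨f x, rfl⟩
  refine ⟨c, fun x hx => ?_⟩
  obtain ⟨y, hy, h⟩ := hc x hx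
  rw [h]
  exact hy

end Pool.Agent.Work.MP_dfab40_lc.R
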