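import Pool.Agent.Work.MP_dfab40_lc.R.B.TabB

/-!
# API of the coding of finite sets (block B)

`pow2 x` is `2^x`, `Mem x a` says that the `x`-th binary digit of `a` is 1 (Ackermann membership).
So numbers are finite sets.  The definitions are in `R/B/Pow.lean`, the theorems in

* `R/B/Rec.lean`: `exists_rec` (primitive recursion with parameters)
* `R/B/Pow.lean`: `exists_pow2`, `pow2`, `pow2_zero`, `pow2_succ`, `Df.pow2`; definitions `Mem`, `sep`,
  `un`, `ins`, `rst`, `ap`, `tab`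
* `R/B/PowL.lean`: `pow2_pos`, `pow2_add`, `pow2_lt`, `pow2_le`, `lt_pow2`, `div_unique`
* `R/B/Dig.lean`: `Dp.mem`, `mem_lt_of_lt_pow2`, `not_mem_of_lt_pow2`, `mem_low`, `mem_low'`, `mem_top`,
  `exists_digit_top`
* `R/B/ExtB.lean`: `mem_lt`, `not_mem_zero`, `le_of_subset`, `mem_ext`, `lt_pow2_iff`
* `R/B/Compr.lean`: `compr`, `mem_sep`, `sep_lt`, `Df.sep`
* `R/B/Sets.lean`: `mem_un`, `Df.un`, `mem_pow2`, `mem_ins`, `Df.ins`, `mem_rst`, `Df.rst`, `Dp.exMem`,
  `Dp.allMem`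
* `R/B/TabB.lean`: `Df.ap`, `exists_tab`, `ap_tab`, `tab_lt`, `exists_image`
-/
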