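import Pool.Agent.Work.MP_dfab40_lc.R.Pair

/-!
# The calculus: contexts, `S1`, `Dp`, `Df`

A context `A` is a type with a bijection onto `M` (`M` itself, products of contexts).  All
definability is transported to `M` (one variable).
-/

namespace Pool.Agent.Work.MP_dfab40_lc.R

/-- The pairing bijection `M × M ≃ M`. -/
noncomputable def pe {M : Type} [PAm M] [ISig M] : M × M ≃ M :=
  Equiv.ofBijective _ pr_bijective

/-- Contexts. -/
class Cd (M : outParam Type) (A : Type) where
  e : A ≃ M

instance Cd.base {M : Type} [PAm M] : Cd M M := ⟨Equiv.refl M⟩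

noncomputable instance Cd.prod {M : Type} [PAm M] [ISig M] {A B : Type} [Cd M A] [Cd M B] :
    Cd M (A × B) := ⟨(Equiv.prodCongr Cd.e Cd.e).trans pe⟩

variable {M : Type} [PAm M] {A B : Type} [Cd M A] [Cd M B]

/-- `Σ_1` relations on a context. -/
def S1 (S : Set (Set M)) (P : A → Prop) : Prop := S1u S (fun x => P (Cd.e.symm x))

/-- `Δ_1` relations on a context. -/
def Dp (S : Set (Set M)) (P : A → Prop) : Prop := S1 S P ∧ S1 S (fun a => ¬ P a)

/-- `Δ_1` functions between contexts. -/
def Df [ISig M] (S : Set (Set M)) (f : A → B) : Prop := S1 S (fun p : A × B => f p.1 = p.2)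

/-- First and second component of a number. -/
noncomputable def fs [ISig M] (z : M) : M := (pe.symm z).1

/-- First and second component of a number. -/
noncomputable def sn [ISig M] (z : M) : M := (pe.symm z).2

/-- The least number with the property `P` (0 if there is none). -/
noncomputable def mu (P : M → Prop) : M :=
  open Classical in if h : ∃ x, P x ∧ ∀ y, y < x → ¬ P y then h.choose else 0

/-- The scheme of `Σ_2` collection, in the form of collection for `Π_1` relations. -/
def BS2 [ISig M] (S : Set (Set M)) : Prop :=
  ∀ R : M → M → Prop, S1 S (fun p : M × M => ¬ R p.1 p.2) →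
    ∀ b, (∀ x, x < b → ∃ y, R x y) → ∃ B, ∀ x, x < b → ∃ y, y < B ∧ R x y

end Pool.Agent.Work.MP_dfab40_lc.R
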