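import Pool.Agent.Work.MP_dfab40_lc.R.C.NFin

/-!
# The Next Lemma (block C)
-/

namespace Pool.Agent.Work.MP_dfab40_lc.R

variable {M : Type} [PAm M] [ISig M] {S : Set (Set M)}

theorem next_lemma [IS S] (J : JP S) (c : M → M → Prop)
    (hc : Dp S (fun p : M × M => c p.1 p.2)) (q : M) (hq : Valid J c q) :
    ∃ q', Valid J c q' ∧ Req q q' :=
  NL.next J c hc q hq

end Pool.Agent.Work.MP_dfab40_lc.R
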