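import Mathlib

/-!
# Definitions of the calculus of definable predicates (board `modrt`, `RT^2_2` over `BΣ_2`)

`M` is a model of `PA^-`, `S` is a set of subsets of `M` (the set parameters).  Number parameters are
always allowed (constants of `M` are polynomial functions).
-/

namespace Pool.Agent.Work.MP_dfab40_lc.R

/-- Models of `PA^-`: discretely ordered commutative semirings, i.e. the nonnegative parts of
discretely ordered commutative rings. -/
class PAm (M : Type) extends CommSemiring M, LinearOrder M, IsStrictOrderedRing M,
    CanonicallyOrderedAdd M where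
  one_le_of_pos : ∀ x : M, 0 < x → 1 ≤ x

/-- Polynomial functions (with constants from `M`) of the coordinate functions `C` of a context `A`. -/
inductive PolyF {M : Type} [PAm M] {A : Type} (C : Set (A → M)) : (A → M) → Prop
  | coord {f : A → M} : f ∈ C → PolyF C f
  | const (c : M) : PolyF C (fun _ => c)
  | add {f g : A → M} : PolyF C f → PolyF C g → PolyF C (fun a => f a + g a)
  | mul {f g : A → M} : PolyF C f → PolyF C g → PolyF C (fun a => f a * g a)

/-- Coordinates of the context `A × M`. -/
def extC {M A : Type} (C : Set (A → M)) : Set (A × M → M) :=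
  {g | (∃ f ∈ C, g = fun p => f p.1) ∨ g = fun p => p.2}

/-- Bounded (`Δ_0`) relations with set parameters from `S`, on a context `A` with coordinates `C`. -/
inductive D0 {M : Type} [PAm M] (S : Set (Set M)) :
    (A : Type) → Set (A → M) → (A → Prop) → Prop
  | lt {A : Type} {C : Set (A → M)} {f g : A → M} :
      PolyF C f → PolyF C g → D0 S A C (fun a => f a < g a)
  | mem {A : Type} {C : Set (A → M)} {f : A → M} {X : Set M} :
      X ∈ S → PolyF C f → D0 S A C (fun a => f a ∈ X)
  | not {A : Type} {C : Set (A → M)} {R : A → Prop} :
      D0 S A C R → D0 S A C (fun a => ¬ R a)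
  | and {A : Type} {C : Set (A → M)} {R R' : A → Prop} :
      D0 S A C R → D0 S A C R' → D0 S A C (fun a => R a ∧ R' a)
  | bex {A : Type} {C : Set (A → M)} {f : A → M} {R : A × M → Prop} :
      PolyF C f → D0 S (A × M) (extC C) R → D0 S A C (fun a => ∃ y, y < f a ∧ R (a, y))

/-- `Σ_1` subsets of `M` (with number parameters, and set parameters from `S`). -/
def S1u {M : Type} [PAm M] (S : Set (Set M)) (P : M → Prop) : Prop :=
  ∃ R : M × M → Prop, D0 S (M × M) (extC {fun x : M => x}) R ∧ ∀ x, P x ↔ ∃ w, R (x, w)

/-- The scheme of `Σ_1` induction with set parameters from `S`. -/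
class IS {M : Type} [PAm M] (S : Set (Set M)) : Prop where
  ind : ∀ P : M → Prop, S1u S P → P 0 → (∀ x, P x → P (x + 1)) → ∀ x, P x

/-- `Σ_1` induction without set parameters. -/
class ISig (M : Type) [PAm M] : Prop where
  is : IS (∅ : Set (Set M))

instance {M : Type} [PAm M] [h : ISig M] : IS (∅ : Set (Set M)) := h.is

/-- The square pairing function (as `Nat.pair`). -/
def pr {M : Type} [PAm M] (x y : M) : M := if x < y then y * y + x else x * x + x + y

end Pool.Agent.Work.MP_dfab40_lc.R
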