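import Pool.Agent.Work.MP_dfab40_lc.R.E.JPred

/-!
# The universal jump predicate (block E)
-/

namespace Pool.Agent.Work.MP_dfab40_lc.R

variable {M : Type} [PAm M] [ISig M]

theorem exists_univ (X : Set M) [IS ({X} : Set (Set M))] :
    ∃ J : JP ({X} : Set (Set M)), ∀ H : Set M, (∀ n, ∃ F, ∀ x, Mem x F ↔ x < n ∧ x ∈ H) →
      ∀ P : M → Prop, S1 ({X, H} : Set (Set M)) P → ∃ g, ∀ x, P x ↔ J.Jump H (2 * pr g x) :=
  exists_univ_proof X

end Pool.Agent.Work.MP_dfab40_lc.R
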