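import Pool.Agent.Work.MP_dfab40_lc.R.Step
import Pool.Agent.Work.MP_dfab40_lc.R.Univ

/-!
# The full extension step
-/

namespace Pool.Agent.Work.MP_dfab40_lc.R

variable {M : Type} [PAm M] [ISig M]

/-- For a countable model of `IΣ_1(X) + BΣ_2(X)` and a `Δ_1(X)` colouring of pairs there is an
unbounded homogeneous set `H` with `IΣ_1(X, H) + BΣ_2(X, H)`. -/
theorem full_step [Countable M] (X : Set M) (hX : IS ({X} : Set (Set M)))
    (hB : BS2 ({X} : Set (Set M))) (c : M → M → Prop)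
    (hc : Dp ({X} : Set (Set M)) (fun p : M × M => c p.1 p.2)) :
    ∃ (j : Bool) (H : Set M), (∀ a, ∃ x ∈ H, a ≤ x) ∧
      (∀ x ∈ H, ∀ y ∈ H, x < y → (c x y ↔ j = true)) ∧
      IS ({X, H} : Set (Set M)) ∧ BS2 ({X, H} : Set (Set M)) := by
  obtain ⟨J, hJ⟩ := exists_univ X
  obtain ⟨j, H, hunb, hhom, ham, hK, hcoll⟩ := step (Set.countable_singleton X) hB J c hc
  refine ⟨j, H, hunb, hhom, ⟨?_⟩, ?_⟩
  · intro P hP h0 hs a
    obtain ⟨g, hg⟩ := hJ H ham P hP
    obtain ⟨K, hKK⟩ := hK (2 * pr g a + 1)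
    have key : ∀ x, x ≤ a → (P x ↔ Mem (2 * pr g x) K) := by
      intro x hx
      rw [hg, hKK]
      have : 2 * pr g x < 2 * pr g a + 1 := by
        rw [lt_succ_iff]
        rcases hx.lt_or_eq with h | h
        · exact mul_le_mul_right (le_of_lt (pr_lt_pr_right g h)) 2
        · rw [h]
      exact ⟨fun h => ⟨this, h⟩, fun h => h.2⟩
    have hD : Dp ({X} : Set (Set M)) (fun x : M => x ≤ a → Mem (2 * pr g x) K) :=
      Dp.imp (Dp.le Df.id (Df.const a))
        (Dp.mem (Df.mul (Df.const 2) (Df.pr (Df.const g) Df.id)) (Df.const K))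
    have := ind_Dp hD (fun h => (key 0 h).1 h0) (fun x ih hx => by
      have hxa : x ≤ a := le_trans (le_of_lt (lt_succ_iff.2 le_rfl)) hx
      exact (key _ hx).1 (hs x ((key x hxa).2 (ih hxa)))) a
    exact (key a le_rfl).2 (this le_rfl)
  · intro R hR b hb
    have hR' : S1 ({X, H} : Set (Set M)) (fun z : M => ¬ R (fs z) (sn z)) :=
      S1.comp (P := fun p : M × M => ¬ R p.1 p.2) (f := fun z : M => (fs z, sn z)) hR
        (Df.pair (Df.fs Df.id) (Df.sn Df.id))
    obtain ⟨g, hg⟩ := hJ H ham _ hR'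
    have hg' : ∀ x y, R x y ↔ ¬ J.Jump H (2 * pr g (pr x y)) := by
      intro x y
      have := hg (pr x y)
      rw [fs_pr, sn_pr] at this
      rw [← this]
      exact (not_not).symm
    simp only [hg'] at hb ⊢
    exact hcoll b g hb

end Pool.Agent.Work.MP_dfab40_lc.R
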