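import Pool.Agent.Work.MP_dfab40_lc.R.A.Base

/-!
# Module `Pair`: the square pairing is a bijection

`x, y < n` gives `pr x y < n * n`.  Surjectivity: for `z` there is an `n` with
`n * n ≤ z < (n+1)*(n+1)` (induction, from `ISig`), `z = n*n + r`,
`r ≤ 2n`: if `r < n` then `z = pr r n`, else `z = pr n (r - n)`.
-/

namespace Pool.Agent.Work.MP_dfab40_lc.R

private theorem pr_of_lt {M : Type} [PAm M] {x y : M} (h : x < y) : pr x y = y * y + x := by
  unfold pr
  rw [if_pos h]

private theorem pr_of_le {M : Type} [PAm M] {x y : M} (h : y ≤ x) : pr x y = x * x + x + y := by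
  unfold pr
  rw [if_neg (not_lt.2 h)]

/-- `n ≤ m`, `r ≤ 2 n` and `n < m` give `n² + r < m²`. -/
private theorem sq_lt {M : Type} [PAm M] {n m r : M} (h : n < m) (hr : r ≤ n + n) :
    n * n + r < m * m := by
  obtain ⟨d, hd⟩ := PAm.exists_lt h
  obtain ⟨e, he⟩ := PAm.exists_le hr
  refine PAm.lt_of (e + (n + n) * d + d * d + (d + d)) ?_
  rw [← hd]
  calc n * n + r + (e + (n + n) * d + d * d + (d + d)) + 1
      = n * n + (r + e) + ((n + n) * d + d * d + (d + d)) + 1 := by ring
    _ = n * n + (n + n) + ((n + n) * d + d * d + (d + d)) + 1 := by rw [he]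
    _ = (n + d + 1) * (n + d + 1) := by ring

theorem pr_lt_pr_left {M : Type} [PAm M] {a b : M} (c : M) (h : a < b) : pr a c < pr b c := by
  rcases lt_or_ge a c with h1 | h1
  · rw [pr_of_lt h1]
    rcases lt_or_ge b c with h2 | h2
    · rw [pr_of_lt h2]
      exact add_lt_add_right h _
    · rw [pr_of_le h2]
      calc c * c + a < c * c + b := add_lt_add_right h _
        _ ≤ b * b + b := add_le_add_left (mul_le_mul h2 h2 zero_le zero_le) _
        _ ≤ b * b + b + c := le_add_of_nonneg_right zero_le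
  · have h2 : c ≤ b := h1.trans h.le
    rw [pr_of_le h1, pr_of_le h2]
    calc a * a + a + c ≤ b * b + a + c :=
          add_le_add_left (add_le_add_left (mul_le_mul h.le h.le zero_le zero_le) _) _
      _ < b * b + b + c := add_lt_add_left (add_lt_add_right h _) _

theorem pr_lt_pr_right {M : Type} [PAm M] {a b : M} (c : M) (h : a < b) : pr c a < pr c b := by
  rcases lt_or_ge c a with h1 | h1
  · have h2 : c < b := h1.trans h
    rw [pr_of_lt h1, pr_of_lt h2]
    have := sq_lt (r := 0) h zero_le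
    rw [add_zero] at this
    exact add_lt_add_left this _
  · rw [pr_of_le h1]
    rcases lt_or_ge c b with h2 | h2
    · rw [pr_of_lt h2]
      have := sq_lt (r := a) h2 (h1.trans (le_add_of_nonneg_right zero_le))
      calc c * c + c + a = c * c + a + c := by ring
        _ < b * b + c := add_lt_add_left this _
    · rw [pr_of_le h2]
      exact add_lt_add_right h _

theorem left_le_pr {M : Type} [PAm M] (a b : M) : a ≤ pr a b := by
  rcases lt_or_ge a b with h1 | h1
  · rw [pr_of_lt h1]
    exact le_add_of_nonneg_left zero_le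
  · rw [pr_of_le h1]
    exact PAm.le_of (a * a + b) (by ring)

private theorem le_sq {M : Type} [PAm M] (b : M) : b ≤ b * b := by
  rcases eq_or_lt_of_le (zero_le : (0 : M) ≤ b) with h | h
  · rw [← h, mul_zero]
  · calc b = b * 1 := (mul_one b).symm
      _ ≤ b * b := mul_le_mul le_rfl (PAm.one_le_of_pos b h) zero_le zero_le

theorem right_le_pr {M : Type} [PAm M] (a b : M) : b ≤ pr a b := by
  rcases lt_or_ge a b with h1 | h1
  · rw [pr_of_lt h1]
    exact (le_sq b).trans (le_add_of_nonneg_right zero_le)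
  · rw [pr_of_le h1]
    exact le_add_of_nonneg_left zero_le

theorem pr_lt_sq {M : Type} [PAm M] {a b n : M} (ha : a < n) (hb : b < n) : pr a b < n * n := by
  rcases lt_or_ge a b with h1 | h1
  · rw [pr_of_lt h1]
    exact sq_lt hb (h1.le.trans (le_add_of_nonneg_right zero_le))
  · rw [pr_of_le h1, add_assoc]
    exact sq_lt ha (add_le_add_right h1 _)

private theorem sq_unique {M : Type} [PAm M] {n m r s : M} (hr : r ≤ n + n) (hs : s ≤ m + m)
    (h : n * n + r = m * m + s) : n = m ∧ r = s := by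
  have hnm : n = m := by
    rcases lt_trichotomy n m with h1 | h1 | h1
    · have := sq_lt h1 hr
      rw [h] at this
      exact absurd this (not_lt.2 (le_add_of_nonneg_right zero_le))
    · exact h1
    · have := sq_lt h1 hs
      rw [← h] at this
      exact absurd this (not_lt.2 (le_add_of_nonneg_right zero_le))
  subst hnm
  exact ⟨rfl, add_left_cancel h⟩

private theorem pr_inj0 {M : Type} [PAm M] {x y x' y' : M} (h : pr x y = pr x' y') :
    x = x' ∧ y = y' := by
  rcases lt_or_ge x y with h1 | h1 <;> rcases lt_or_ge x' y' with h2 | h2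
  · rw [pr_of_lt h1, pr_of_lt h2] at h
    obtain ⟨h3, h4⟩ := sq_unique (h1.le.trans (le_add_of_nonneg_right zero_le))
      (h2.le.trans (le_add_of_nonneg_right zero_le)) h
    exact ⟨h4, h3⟩
  · rw [pr_of_lt h1, pr_of_le h2, add_assoc (x' * x')] at h
    obtain ⟨h3, h4⟩ := sq_unique (h1.le.trans (le_add_of_nonneg_right zero_le))
      (add_le_add_right h2 _) h
    exfalso
    have : y ≤ x := by
      rw [h4, h3]
      exact le_add_of_nonneg_right zero_le
    exact absurd h1 (not_lt.2 this)
  · rw [pr_of_le h1, pr_of_lt h2, add_assoc (x * x)] at h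
    obtain ⟨h3, h4⟩ := sq_unique (add_le_add_right h1 _)
      (h2.le.trans (le_add_of_nonneg_right zero_le)) h
    exfalso
    have : y' ≤ x' := by
      rw [← h4, ← h3]
      exact le_add_of_nonneg_right zero_le
    exact absurd h2 (not_lt.2 this)
  · rw [pr_of_le h1, pr_of_le h2, add_assoc (x * x), add_assoc (x' * x')] at h
    obtain ⟨h3, h4⟩ := sq_unique (add_le_add_right h1 _) (add_le_add_right h2 _) h
    subst h3
    exact ⟨rfl, add_left_cancel h4⟩

private theorem exists_sqrt {M : Type} [PAm M] [ISig M] (z : M) :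
    ∃ n : M, n * n ≤ z ∧ z < (n + 1) * (n + 1) := by
  revert z
  refine ind_S1C (S := (∅ : Set (Set M)))
    (P := fun z => ∃ n : M, n * n ≤ z ∧ z < (n + 1) * (n + 1)) ?_ ?_ ?_
  · refine S1C.ex (P := fun p : M × M => p.2 * p.2 ≤ p.1 ∧ p.1 < (p.2 + 1) * (p.2 + 1))
      (D0.s1 (D0.and (D0.le ?_ ?_) (D0.lt ?_ ?_)))
    · exact PolyF.mul PolyF.snd PolyF.snd
    · exact PolyF.id.fst
    · exact PolyF.id.fst
    · exact PolyF.mul (PolyF.add PolyF.snd (PolyF.const 1)) (PolyF.add PolyF.snd (PolyF.const 1))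
  · exact ⟨0, by rw [mul_zero], by rw [zero_add, mul_one]; exact zero_lt_one⟩
  · rintro z ⟨n, h1, h2⟩
    rcases lt_or_ge (z + 1) ((n + 1) * (n + 1)) with h3 | h3
    · exact ⟨n, h1.trans (le_add_of_nonneg_right zero_le), h3⟩
    · refine ⟨n + 1, h3, ?_⟩
      have h4 : z + 1 ≤ (n + 1) * (n + 1) := PAm.succ_le.2 h2
      have h5 : (n + 1) * (n + 1) < (n + 1 + 1) * (n + 1 + 1) := by
        have := sq_lt (n := n + 1) (m := n + 1 + 1) (r := 0) (lt_add_of_pos_right _ zero_lt_one)
          zero_le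
        rwa [add_zero] at this
      exact lt_of_le_of_lt h4 h5

theorem pr_bijective {M : Type} [PAm M] [ISig M] :
    Function.Bijective (fun p : M × M => pr p.1 p.2) := by
  constructor
  · rintro ⟨x, y⟩ ⟨x', y'⟩ h
    obtain ⟨h1, h2⟩ := pr_inj0 h
    exact Prod.ext h1 h2
  · intro z
    obtain ⟨n, h1, h2⟩ := exists_sqrt z
    obtain ⟨r, hr⟩ := PAm.exists_le h1
    have h3 : r ≤ n + n := by
      have h4 : (n + 1) * (n + 1) = n * n + (n + n + 1) := by ring
      rw [h4, ← hr] at h2
      exact PAm.lt_succ.1 (lt_of_add_lt_add_left h2)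
    rcases lt_or_ge r n with h4 | h4
    · exact ⟨(r, n), by simp only [pr_of_lt h4]; exact hr⟩
    · obtain ⟨s, hs⟩ := PAm.exists_le h4
      have h5 : s ≤ n := by
        rw [← hs] at h3
        exact le_of_add_le_add_left h3
      exact ⟨(n, s), by simp only [pr_of_le h5]; rw [add_assoc, hs]; exact hr⟩

/-- The graph of the pairing function is `D0` (in the variables `x, y, z`). -/
theorem D0_pr {M : Type} [PAm M] (S : Set (Set M)) {A : Type} {C : Set (A → M)} {f g h : A → M}
    (hf : PolyF C f) (hg : PolyF C g) (hh : PolyF C h) :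
    D0 S A C (fun a => pr (f a) (g a) = h a) := by
  refine (D0.or (P := fun a => f a < g a ∧ g a * g a + f a = h a)
    (Q := fun a => ¬ f a < g a ∧ f a * f a + f a + g a = h a)
    (D0.and (D0.lt hf hg) (D0.eq (PolyF.add (PolyF.mul hg hg) hf) hh))
    (D0.and (D0.not (D0.lt hf hg))
      (D0.eq (PolyF.add (PolyF.add (PolyF.mul hf hf) hf) hg) hh))).congr ?_
  intro a
  rcases lt_or_ge (f a) (g a) with h1 | h1
  · rw [pr_of_lt h1]
    exact ⟨fun h2 => Or.inl ⟨h1, h2⟩, fun h2 => h2.elim (fun h3 => h3.2) fun h3 => absurd h1 h3.1⟩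
  · rw [pr_of_le h1]
    exact ⟨fun h2 => Or.inr ⟨not_lt.2 h1, h2⟩,
      fun h2 => h2.elim (fun h3 => absurd h3.1 (not_lt.2 h1)) fun h3 => h3.2⟩

end Pool.Agent.Work.MP_dfab40_lc.R
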