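import Pool.Agent.Work.MP_dfab40_lc.R.ApiB

/-!
# States of the construction (shared definitions of the blocks C, D, E)
-/

namespace Pool.Agent.Work.MP_dfab40_lc.R

variable {M : Type} [PAm M] [ISig M]

/-- An abstract jump predicate: `Th e w F` says that the fact number `e` is true of the finite set
`F` with a witness `< w`.  It depends only on `F ∩ [0, w)` and is monotone.  The facts with odd
number say that there are large elements. -/
structure JP (S : Set (Set M)) where
  Th : M → M → M → Prop
  dp : Dp S (fun p : M × (M × M) => Th p.1 p.2.1 p.2.2)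
  mono : ∀ e w w' F F' : M, w ≤ w' → (∀ x, x < w → (Mem x F ↔ Mem x F')) → Th e w F → Th e w' F'
  big : ∀ a w F x : M, Mem x F → a ≤ x → x < w → Th (2 * a + 1) w F
  big' : ∀ a w F : M, Th (2 * a + 1) w F → ∃ x, Mem x F ∧ a ≤ x ∧ x < w

/-- The fact number `e` is true of the (infinite) set `H`. -/
def JP.Jump {S : Set (Set M)} (J : JP S) (H : Set M) (e : M) : Prop :=
  ∃ w F, (∀ x, x < w → (Mem x F ↔ x ∈ H)) ∧ J.Th e w F

/-- The pair `x, y` has the colour `j`. -/
def col (c : M → M → Prop) (j : Bool) (x y : M) : Prop := c x y ↔ j = true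

/-- The finite set `G` is homogeneous with colour `j`. -/
def Hom (c : M → M → Prop) (j : Bool) (G : M) : Prop :=
  ∀ x, Mem x G → ∀ y, Mem y G → x < y → col c j x y

/-- A node `v` is a number coding the finite sets `F_0, F_1`, the numbers `B_0, B_1`, the finite
sets `D_0, D_1` and an identifier. -/
def node (F B D : Bool → M) (i : M) : M :=
  pr (pr (pr (F false) (F true)) (pr (B false) (B true))) (pr (pr (D false) (D true)) i)

noncomputable def nF (j : Bool) (v : M) : M :=
  match j with
  | false => fs (fs (fs v))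
  | true => sn (fs (fs v))

noncomputable def nB (j : Bool) (v : M) : M :=
  match j with
  | false => fs (sn (fs v))
  | true => sn (sn (fs v))

noncomputable def nD (j : Bool) (v : M) : M :=
  match j with
  | false => fs (fs (sn v))
  | true => sn (fs (sn v))

noncomputable def nI (v : M) : M := sn (sn v)

variable {S : Set (Set M)}

/-- Invariants of a node at the stage `s`. -/
def NodeOK (J : JP S) (c : M → M → Prop) (s v : M) : Prop :=
  ∀ j : Bool, (∀ x, Mem x (nF j v) → x < s) ∧ Hom c j (nF j v) ∧
    ∀ e, Mem e (nD j v) → e < nB j v ∧ J.Th e s (nF j v)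

/-- A state `q` is a pair of a number `s = fs q` and a finite set `N = sn q` of nodes.  `Z` is an
assignment of nodes to the numbers `y`, `s ≤ y < n`, which respects the colours (first part) and
the negative facts (second part, only for the nodes which are values of `Z`). -/
def Cl (J : JP S) (c : M → M → Prop) (q n Z : M) : Prop :=
  (∀ y, y < n → fs q ≤ y → Mem (ap Z y) (sn q) ∧ ∀ j x, Mem x (nF j (ap Z y)) → col c j x y) ∧
  ∀ v, (∃ y, y < n ∧ fs q ≤ y ∧ ap Z y = v) → ∀ j : Bool, ∀ G,
    (∀ x, Mem x G → fs q ≤ x ∧ x < n ∧ ap Z x = v) →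
    Hom c j G → ∀ e, e < nB j v → J.Th e n (un (nF j v) G) → Mem e (nD j v)

/-- Valid states. -/
def Valid (J : JP S) (c : M → M → Prop) (q : M) : Prop :=
  (∀ v, Mem v (sn q) → NodeOK J c (fs q) v) ∧ ∀ n, fs q ≤ n → ∃ Z, Cl J c q n Z

/-- The node `v'` extends the node `v` (of stage `s`). -/
def Ext (s v v' : M) : Prop :=
  ∀ j : Bool, (∀ x, x < s → (Mem x (nF j v') ↔ Mem x (nF j v))) ∧ nB j v ≤ nB j v' ∧
    ∀ e, e < nB j v → (Mem e (nD j v') ↔ Mem e (nD j v))

/-- Requirement for a step `q → q'`. -/
def Req (q q' : M) : Prop :=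
  q < q' ∧ fs q ≤ fs q' ∧ ∀ v', Mem v' (sn q') →
    (∃ v, Mem v (sn q) ∧ Ext (fs q) v v') ∧ ∃ j : Bool, q ≤ nB j v'

@[simp] theorem nF_node (F B D : Bool → M) (i : M) (j : Bool) : nF j (node F B D i) = F j := by
  cases j <;> simp [nF, node]

@[simp] theorem nB_node (F B D : Bool → M) (i : M) (j : Bool) : nB j (node F B D i) = B j := by
  cases j <;> simp [nB, node]

@[simp] theorem nD_node (F B D : Bool → M) (i : M) (j : Bool) : nD j (node F B D i) = D j := by
  cases j <;> simp [nD, node]

@[simp] theorem nI_node (F B D : Bool → M) (i : M) : nI (node F B D i) = i := by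
  simp [nI, node]

/-- The initial state. -/
noncomputable def q0 : M := pr 0 (pow2 0)

end Pool.Agent.Work.MP_dfab40_lc.R
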