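import Pool.Agent.Work.MP_dfab40_lc.R.D.Coll
import Pool.Agent.Work.MP_dfab40_lc.R.D.Ult

/-!
# The Step Theorem (block D)
-/

namespace Pool.Agent.Work.MP_dfab40_lc.R

variable {M : Type} [PAm M] [ISig M] {S : Set (Set M)}

theorem step [Countable M] (hS : S.Countable) [IS S] (hB : BS2 S) (J : JP S) (c : M → M → Prop)
    (hc : Dp S (fun p : M × M => c p.1 p.2)) :
    ∃ (j : Bool) (H : Set M), (∀ a, ∃ x ∈ H, a ≤ x) ∧
      (∀ x ∈ H, ∀ y ∈ H, x < y → col c j x y) ∧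
      (∀ n, ∃ F, ∀ x, Mem x F ↔ x < n ∧ x ∈ H) ∧
      (∀ b, ∃ K, ∀ e, Mem e K ↔ e < b ∧ J.Jump H e) ∧
      ∀ b g, (∀ x, x < b → ∃ y, ¬ J.Jump H (2 * pr g (pr x y))) →
        ∃ B, ∀ x, x < b → ∃ y, y < B ∧ ¬ J.Jump H (2 * pr g (pr x y)) := by
  obtain ⟨U, hU1, hU2⟩ := exists_ult hS hB
  obtain ⟨C, hC⟩ := exists_chain J hc
  obtain ⟨tn, htn, ht⟩ := exists_top_node J hc hC
  obtain ⟨j, hj⟩ := early J U (early_some J hc hC U hU1 hU2 (fun n i hi => (ht n).2.2.2.2 i hi))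
  have h2 : ∀ n e, e < nB j (tn n) → J.Th e (n + 1) (nF j (tn n)) → Mem e (nD j (tn n)) :=
    fun n e => (ht n).2.2.1 j e
  have h3 : ∀ n e, e < nB j (tn n) → J.Th e (n + 1) (ins n (nF j (tn n))) →
      Mem e (nD j (tn n)) := fun n e => (ht n).2.2.2.1 j e
  have hji := fun e => jump_iff J U hU1 hU2 htn j h2 hj e
  refine ⟨j, limS U (fun n => nF j (tn n)), lim_unbdd J U hU1 hU2 htn j h2 h3 hj,
    lim_hom U j (fun n => (ht n).2.1 j), ?_, ?_, ?_⟩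
  · intro n
    obtain ⟨a, -, ha⟩ := lim_rst U hU2 (Df.nF j htn) n
    exact ⟨a, ha⟩
  · intro b
    obtain ⟨a, -, ha⟩ := lim_rst U hU2 (Df.nD j htn) b
    refine ⟨a, fun e => ?_⟩
    rw [ha, hji]
  · intro b g h
    simp only [hji] at h ⊢
    exact lim_coll U hU1 hU2 (Df.nD j htn) b g h

end Pool.Agent.Work.MP_dfab40_lc.R
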